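import Pool.Agent.Helper60.Plz.Defs

/-!
MP_8e7d5e_co, packet D: finite groups generated by involutions without short relations.
-/

set_option autoImplicit false

namespace Pool.Agent.Helper89.Plz

open Pool.Agent.Helper60.Plz

/-- reduced words of length at most `g` -/
def Ball (E : Type) (g : ℕ) : Type := {l : List E // l.IsChain (· ≠ ·) ∧ l.length ≤ g}

open Classical in
/-- the raw involution -/
noncomputable def inv0 {E : Type} (g : ℕ) (e : E) (l : List E) : List E :=
  if l.head? = some e then l.tail else if l.length < g then e :: l else l

lemma inv0_mem {E : Type} {g : ℕ} (e : E) {l : List E} (h : l.IsChain (· ≠ ·) ∧ l.length ≤ g) :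
    (inv0 g e l).IsChain (· ≠ ·) ∧ (inv0 g e l).length ≤ g := by
  classical
  unfold inv0
  split_ifs with h1 h2
  · refine ⟨h.1.tail, ?_⟩
    rw [List.length_tail]
    omega
  · refine ⟨?_, by rw [List.length_cons]; omega⟩
    cases l with
    | nil => simp
    | cons a l =>
      rw [List.isChain_cons_cons]
      refine ⟨?_, h.1⟩
      intro hea
      apply h1
      rw [hea]
      rfl
  · exact h

lemma inv0_inv0 {E : Type} {g : ℕ} (e : E) {l : List E} (h : l.IsChain (· ≠ ·) ∧ l.length ≤ g) :
    inv0 g e (inv0 g e l) = l := by
  classical
  unfold inv0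
  by_cases h1 : l.head? = some e
  · rw [if_pos h1]
    cases l with
    | nil => simp at h1
    | cons a l =>
      simp only [List.head?_cons, Option.some.injEq] at h1
      subst h1
      simp only [List.tail_cons]
      have h2 : l.head? ≠ some a := by
        intro hc
        cases l with
        | nil => simp at hc
        | cons b l =>
          simp only [List.head?_cons, Option.some.injEq] at hc
          subst hc
          have := h.1
          rw [List.isChain_cons_cons] at this
          exact this.1 rfl
      rw [if_neg h2, if_pos]
      have := h.2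
      rw [List.length_cons] at this
      omega
  · rw [if_neg h1]
    by_cases h2 : l.length < g
    · rw [if_pos h2]
      simp
    · rw [if_neg h2, if_neg h1, if_neg h2]

/-- the involution -/
noncomputable def inv1 {E : Type} (g : ℕ) (e : E) : Equiv.Perm (Ball E g) where
  toFun l := ⟨inv0 g e l.1, inv0_mem e l.2⟩
  invFun l := ⟨inv0 g e l.1, inv0_mem e l.2⟩
  left_inv l := Subtype.ext (inv0_inv0 e l.2)
  right_inv l := Subtype.ext (inv0_inv0 e l.2)

lemma prod_nil {E : Type} (g : ℕ) : ∀ l : List E, l.IsChain (· ≠ ·) → l.length ≤ g →
    (((l.map (inv1 g)).prod) ⟨[], by simp⟩ : Ball E g).1 = l := by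
  classical
  intro l
  induction l with
  | nil => intro _ _; simp
  | cons a l ih =>
    intro h1 h2
    rw [List.length_cons] at h2
    rw [List.map_cons, List.prod_cons, Equiv.Perm.mul_apply]
    have h3 := ih h1.tail (by omega)
    have h4 : ((inv1 g a) ((l.map (inv1 g)).prod ⟨[], by simp⟩) : Ball E g).1 =
        inv0 g a ((l.map (inv1 g)).prod ⟨[], by simp⟩ : Ball E g).1 := rfl
    rw [h4, h3]
    unfold inv0
    have h5 : l.head? ≠ some a := by
      intro hc
      cases l with
      | nil => simp at hc
      | cons b l =>
        simp only [List.head?_cons, Option.some.injEq] at hc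
        subst hc
        rw [List.isChain_cons_cons] at h1
        exact h1.1 rfl
    rw [if_neg h5, if_pos (by omega)]

theorem packetD : GoalD := by
  intro E _ g
  have hfin : Finite (Ball E g) := by
    have h1 : {L : List E | L.length ≤ g}.Finite := List.finite_length_le _ g
    apply Set.Finite.subset h1
    intro l hl
    exact hl.2
  have : Fintype (Ball E g) := Fintype.ofFinite _
  classical
  have : Fintype (Equiv.Perm (Ball E g)) := Fintype.ofFinite _
  refine ⟨Equiv.Perm (Ball E g), inferInstance, this, inv1 g, ?_, ?_⟩
  · intro e
    apply Equiv.ext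
    intro l
    rw [Equiv.Perm.mul_apply, Equiv.Perm.one_apply]
    exact Subtype.ext (inv0_inv0 e l.2)
  · intro l hl hlen hch he
    have := prod_nil g l hch hlen
    rw [he] at this
    exact hl this.symm

end Pool.Agent.Helper89.Plz
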