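import Pool.Agent.Helper60.Plz.Defs

/-!
MP_8e7d5e_co, packet E: a graph without short non-backtracking closed walks is locally sparse.
-/

set_option autoImplicit false

namespace Pool.Agent.Helper89.Plz

open Pool.Agent.Helper60.Plz

open Classical in
lemma eIn_erase {V : Type} (H : SimpleGraph V) (P : Finset V) (x : V) :
    eIn H P ≤ eIn H (P.erase x) + 2 * (P.filter (fun y => H.Adj x y)).card := by
  unfold eIn
  have hsub : ((P ×ˢ P).filter fun p => H.Adj p.1 p.2) ⊆
      ((((P.erase x) ×ˢ (P.erase x)).filter fun p => H.Adj p.1 p.2) ∪
        (P.filter (fun y => H.Adj x y)).image (fun y => (x, y))) ∪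
        (P.filter (fun y => H.Adj x y)).image (fun y => (y, x)) := by
    rintro ⟨a, b⟩ h
    simp only [Finset.mem_filter, Finset.mem_product] at h
    obtain ⟨⟨ha, hb⟩, hab⟩ := h
    simp only [Finset.mem_union, Finset.mem_filter, Finset.mem_product, Finset.mem_erase,
      Finset.mem_image, Prod.mk.injEq]
    by_cases h1 : a = x
    · left; right
      subst h1
      exact ⟨b, ⟨hb, hab⟩, rfl, rfl⟩
    · by_cases h2 : b = x
      · right
        subst h2
        exact ⟨a, ⟨ha, hab.symm⟩, rfl, rfl⟩
      · left; left
        exact ⟨⟨⟨h1, ha⟩, ⟨h2, hb⟩⟩, hab⟩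
  refine (Finset.card_le_card hsub).trans ?_
  refine (Finset.card_union_le _ _).trans ?_
  have h1 := Finset.card_union_le (((P.erase x) ×ˢ (P.erase x)).filter fun p => H.Adj p.1 p.2)
    ((P.filter (fun y => H.Adj x y)).image (fun y => (x, y)))
  have h2 : ((P.filter (fun y => H.Adj x y)).image (fun y => (x, y))).card ≤ _ :=
    Finset.card_image_le
  have h3 : ((P.filter (fun y => H.Adj x y)).image (fun y => (y, x))).card ≤ _ :=
    Finset.card_image_le
  omega

theorem packetE : GoalE := by
  classical
  intro V _ H g hw
  have main : ∀ (m : ℕ) (P : Finset V), P.card = m → P.Nonempty → P.card ≤ g →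
      eIn H P + 2 ≤ 2 * P.card := by
    intro m
    induction m with
    | zero =>
      intro P h1 h2
      rw [Finset.card_eq_zero] at h1
      rw [h1] at h2
      exact absurd h2 Finset.not_nonempty_empty
    | succ m ih =>
      intro P h1 h2 h3
      by_cases hx : ∃ x ∈ P, (P.filter (fun y => H.Adj x y)).card ≤ 1
      · obtain ⟨x, hxP, hx⟩ := hx
        have h4 := eIn_erase H P x
        have h5 : (P.erase x).card = m := by
          rw [Finset.card_erase_of_mem hxP]; omega
        rcases Nat.eq_zero_or_pos m with hm | hm
        · have h6 : P = {x} := by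
            have : P.card = 1 := by omega
            rw [Finset.card_eq_one] at this
            obtain ⟨a, ha⟩ := this
            rw [ha] at hxP ⊢
            rw [Finset.mem_singleton] at hxP
            rw [hxP]
          have h7 : eIn H P = 0 := by
            unfold eIn
            rw [Finset.card_eq_zero, Finset.filter_eq_empty_iff]
            rintro ⟨a, b⟩ hab
            rw [h6] at hab
            simp only [Finset.mem_product, Finset.mem_singleton] at hab
            rw [hab.1, hab.2]
            exact H.loopless.irrefl x
          omega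
        · have h6 := ih (P.erase x) h5 (Finset.card_pos.1 (by omega)) (by omega)
          omega
      · exfalso
        push Not at hx
        have hex : ∀ x ∈ P, ∀ y : V, ∃ z ∈ P, H.Adj x z ∧ z ≠ y := by
          intro x hxP y
          obtain ⟨z, hz, hzy⟩ := Finset.exists_mem_ne (hx x hxP) y
          rw [Finset.mem_filter] at hz
          exact ⟨z, hz.1, hz.2, hzy⟩
        choose! F hF1 hF2 hF3 using hex
        obtain ⟨x0, hx0⟩ := h2
        set w : ℕ → V × V := fun n => Nat.rec (x0, F x0 x0) (fun _ p => (p.2, F p.2 p.1)) n with hwd
        have w0 : w 0 = (x0, F x0 x0) := rfl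
        have ws : ∀ n, w (n + 1) = ((w n).2, F (w n).2 (w n).1) := fun n => rfl
        have hmem : ∀ n, (w n).1 ∈ P ∧ (w n).2 ∈ P ∧ H.Adj (w n).1 (w n).2 := by
          intro n
          induction n with
          | zero =>
            rw [w0]
            exact ⟨hx0, hF1 x0 hx0 x0, hF2 x0 hx0 x0⟩
          | succ n ihn =>
            rw [ws]
            exact ⟨ihn.2.1, hF1 _ ihn.2.1 _, hF2 _ ihn.2.1 _⟩
        have hnb : ∀ n, (w (n + 2)).1 ≠ (w n).1 := by
          intro n
          rw [ws (n + 1), ws n]
          exact hF3 _ (hmem n).2.1 _
        have hadj : ∀ n, H.Adj (w n).1 (w (n + 1)).1 := by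
          intro n
          rw [ws n]
          exact (hmem n).2.2
        obtain ⟨i, hi, j, hj, hij, he⟩ := Finset.exists_ne_map_eq_of_card_lt_of_maps_to
          (s := Finset.range (P.card + 1)) (t := P) (by rw [Finset.card_range]; omega)
          (f := fun n => (w n).1) (fun n _ => (hmem n).1)
        rw [Finset.mem_range] at hi hj
        have key : ∀ i j, i < P.card + 1 → j < P.card + 1 → i < j → (w i).1 = (w j).1 → False := by
          intro i j hi hj hij he
          apply hw (j - i) (fun k => (w (i + k)).1) (by omega) (by omega)
            (fun k _ => hadj (i + k)) (fun k _ => (hnb (i + k)).symm)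
          simp only [Nat.add_zero]
          rw [he]
          congr 2
          omega
        rcases Nat.lt_or_gt_of_ne hij with h | h
        · exact key i j hi hj h he
        · exact key j i hj hi h he.symm
  intro P hP hg
  exact main _ P rfl hP hg

end Pool.Agent.Helper89.Plz
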